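import Pool.Agent.H27.KF.Stm

/-! Crew KF, part FIN: finitely many pairs of different natural numbers with the same value. -/

set_option autoImplicit false

namespace Pool.Agent.H50.KF

open Finset Polynomial Filter Pool.Agent.H27.KF

theorem eventually_pos (R : ℝ[X]) (h : 0 < R.leadingCoeff) : ∀ᶠ x in atTop, 0 < R.eval x := by
  rcases Nat.eq_zero_or_pos R.natDegree with h0 | h0
  · rw [Polynomial.eq_C_of_natDegree_eq_zero h0]
    have h1 : R.coeff 0 = R.leadingCoeff := by rw [leadingCoeff, h0]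
    filter_upwards with x
    rw [eval_C, h1]
    exact h
  · have h1 : Tendsto (fun x => R.eval x) atTop atTop :=
      Polynomial.tendsto_atTop_of_leadingCoeff_nonneg R (natDegree_pos_iff_degree_pos.1 h0) h.le
    exact h1.eventually_gt_atTop 0

theorem inj_large (P : ℤ[X]) (hP : 1 ≤ P.natDegree) (hl : 0 < P.leadingCoeff) :
    ∃ n0 : ℕ, ∀ u v : ℕ, n0 ≤ u → n0 ≤ v → P.eval (u : ℤ) = P.eval (v : ℤ) → u = v := by
  set R : ℝ[X] := P.map (Int.castRingHom ℝ) with hR
  have hinj : Function.Injective (Int.castRingHom ℝ) := Int.cast_injective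
  have hRd : R.natDegree = P.natDegree := Polynomial.natDegree_map_eq_of_injective hinj P
  have hRl : R.leadingCoeff = (P.leadingCoeff : ℝ) := Polynomial.leadingCoeff_map_of_injective hinj P
  have hR0 : 0 < R.leadingCoeff := by rw [hRl]; exact_mod_cast hl
  have hDl : 0 < (derivative R).leadingCoeff := by
    have h1 : (derivative R).natDegree = R.natDegree - 1 := Polynomial.natDegree_derivative R
    rw [leadingCoeff, h1, coeff_derivative]
    have h2 : R.natDegree - 1 + 1 = R.natDegree := by omega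
    rw [h2]
    have h3 : (0 : ℝ) < ((R.natDegree - 1 : ℕ) : ℝ) + 1 := by positivity
    exact mul_pos hR0 h3
  obtain ⟨x0, hx0⟩ := (eventually_pos _ hDl).exists_forall_of_atTop
  have hmono : StrictMonoOn (fun x : ℝ => R.eval x) (Set.Ici x0) := by
    apply strictMonoOn_of_deriv_pos (convex_Ici x0) R.continuous.continuousOn
    intro x hx
    rw [interior_Ici] at hx
    rw [Polynomial.deriv]
    exact hx0 x (le_of_lt hx)
  have hcast : ∀ u : ℕ, R.eval (u : ℝ) = ((P.eval (u : ℤ) : ℤ) : ℝ) := by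
    intro u
    simp [hR]
  refine ⟨⌈x0⌉₊, ?_⟩
  intro u v hu hv h
  have hu' : x0 ≤ (u : ℝ) := (Nat.le_ceil x0).trans (by exact_mod_cast hu)
  have hv' : x0 ≤ (v : ℝ) := (Nat.le_ceil x0).trans (by exact_mod_cast hv)
  have h2 : R.eval (u : ℝ) = R.eval (v : ℝ) := by rw [hcast, hcast, h]
  have h3 := hmono.injOn hu' hv' h2
  exact_mod_cast h3

theorem inj_large' (P : ℤ[X]) (hP : 1 ≤ P.natDegree) :
    ∃ n0 : ℕ, ∀ u v : ℕ, n0 ≤ u → n0 ≤ v → P.eval (u : ℤ) = P.eval (v : ℤ) → u = v := by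
  have hP0 : P ≠ 0 := by
    rintro rfl
    simp at hP
  rcases lt_trichotomy P.leadingCoeff 0 with h | h | h
  · obtain ⟨n0, hn⟩ := inj_large (-P) (by rwa [natDegree_neg]) (by
      rw [leadingCoeff_neg]; linarith)
    refine ⟨n0, fun u v hu hv huv => hn u v hu hv ?_⟩
    rw [eval_neg, eval_neg, huv]
  · exact absurd (leadingCoeff_eq_zero.1 h) hP0
  · exact inj_large P hP h

theorem fib_fin (P : ℤ[X]) (hP : 1 ≤ P.natDegree) (c : ℤ) :
    {v : ℕ | P.eval (v : ℤ) = c}.Finite := by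
  have h0 : P - C c ≠ 0 := by
    intro h
    have h1 : P = C c := sub_eq_zero.1 h
    rw [h1, natDegree_C] at hP
    omega
  have h1 : {x : ℤ | (P - C c).IsRoot x}.Finite := Polynomial.finite_setOfPred_isRoot h0
  have h2 : {v : ℕ | P.eval (v : ℤ) = c} = (fun v : ℕ => (v : ℤ)) ⁻¹' {x : ℤ | (P - C c).IsRoot x} := by
    ext v
    simp [IsRoot.def, sub_eq_zero]
  rw [h2]
  exact h1.preimage (fun a _ b _ h => by exact_mod_cast h)

theorem t_FIN : S_FIN := by
  intro P hP
  obtain ⟨n0, hn⟩ := inj_large' P hP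
  have hfin : ((⋃ u ∈ Set.Iio n0, ({u} : Set ℕ) ×ˢ {v : ℕ | P.eval (v : ℤ) = P.eval (u : ℤ)}) ∪
      (⋃ u ∈ Set.Iio n0, {v : ℕ | P.eval (v : ℤ) = P.eval (u : ℤ)} ×ˢ ({u} : Set ℕ))).Finite := by
    apply Set.Finite.union
    · exact (Set.finite_Iio n0).biUnion fun u _ => (Set.finite_singleton u).prod (fib_fin P hP _)
    · exact (Set.finite_Iio n0).biUnion fun u _ => (fib_fin P hP _).prod (Set.finite_singleton u)
  refine hfin.subset ?_
  rintro ⟨u, v⟩ ⟨hne, heq⟩
  simp only at hne heq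
  by_cases hu : u < n0
  · left
    simp only [Set.mem_iUnion]
    exact ⟨u, hu, ⟨rfl, heq.symm⟩⟩
  · by_cases hv : v < n0
    · right
      simp only [Set.mem_iUnion]
      exact ⟨v, hv, ⟨heq, rfl⟩⟩
    · exact absurd (hn u v (not_lt.1 hu) (not_lt.1 hv) heq) hne

end Pool.Agent.H50.KF
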